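import Pool.Agent.H333R2.St.Fin

/-!
# The `(K_3, S_{1,2,3})`-free graphs have bounded clique-width
-/

namespace Pool.Agent.Results.MP_042ec1_co.S123Bounded

open SimpleGraph Pool.Agent.Helper856.Cw Pool.Agent.H333R2.St

/-- Q2: there is a constant `c` such that every finite graph without triangle and without induced
`S_{1,2,3}` has clique-width at most `c`. -/
theorem result : ∃ c : ℕ, ∀ (V : Type) [Finite V] (G : SimpleGraph V),
    G.CliqueFree 3 → ¬ S123.IsIndContained G → cliqueWidth G ≤ c :=
  cw_K3_S123

end Pool.Agent.Results.MP_042ec1_co.S123Bounded
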